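import Mathlib
import Pool.Agent.H75.Kokoris3

/-! Every simple Kokoris algebra in a locally admissible variety is a field. -/

set_option autoImplicit false

open Pool.Agent.H75.Kokoris

universe u

theorem Pool.Agent.Results.MP_b27eb5_al.SimpleIsField.result (F : Type u) [Field F]
    (h2 : (2 : F) ≠ 0) (Ids : Set (FreeNonUnitalNonAssocAlgebra F ℕ)) (hV : LocAdm Ids)
    (A : Type u) [NonUnitalNonAssocRing A] [Module F A] [IsScalarTower F A A]
    [SMulCommClass F A A] (hA : InVar Ids A) (hK : IsKokoris A) (hs : IsSimpleAlg F A) :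
    (∀ a b : A, a * b = b * a) ∧ (∀ a b c : A, a * b * c = a * (b * c)) ∧
      ∃ e : A, e ≠ 0 ∧ (∀ a, e * a = a) ∧ ∀ a : A, a ≠ 0 → ∃ b, a * b = e :=
  main h2 hV hA hK hs
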